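import Pool.Agent.Helper98.KW.KeyDefs

/-!
# Piece LA2 of MP_715b63_an : quadratic forms of the matrices `x` and `A`
-/

open CategoryTheory Topology
open scoped ENNReal

set_option linter.unusedSectionVars false

namespace Pool.Agent.KW

universe u v

namespace Key

variable {n : ℕ} {W F : Type u} [Fintype W] [Fintype F] {h : Fin n → W → W → ℝ}
  {E : Fin n → F → F → Prop} {μ : F → ℝ}

namespace LA2

/-- a finite family with at most one nonzero member has sum at most one if all members are -/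
theorem sum_le_one {ι : Type*} [Fintype ι] (a : ι → ℝ) (h1 : ∀ i, a i ≤ 1)
    (hs : ∀ i j, a i ≠ 0 → a j ≠ 0 → i = j) : ∑ i, a i ≤ 1 := by
  classical
  by_cases hex : ∃ i, a i ≠ 0
  · obtain ⟨i, hi⟩ := hex
    rw [Finset.sum_eq_single i]
    · exact h1 i
    · intro j _ hj
      by_contra hc
      exact hj (hs j i hc hi)
    · intro hh; exact absurd (Finset.mem_univ i) hh
  · push Not at hex
    rw [Finset.sum_eq_zero (fun i _ => hex i)]
    exact zero_le_one

theorem sq_sum_le {ι : Type*} [Fintype ι] (a : ι → ℂ)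
    (hs : ∀ i j, a i ≠ 0 → a j ≠ 0 → i = j) : ‖∑ i, a i‖ ^ 2 ≤ ∑ i, ‖a i‖ ^ 2 := by
  classical
  by_cases hex : ∃ i, a i ≠ 0
  · obtain ⟨i, hi⟩ := hex
    rw [Finset.sum_eq_single i]
    · exact Finset.single_le_sum (f := fun i => ‖a i‖ ^ 2) (fun j _ => sq_nonneg _)
        (Finset.mem_univ i)
    · intro j _ hj
      by_contra hc
      exact hj (hs j i hc hi)
    · intro hh; exact absurd (Finset.mem_univ i) hh
  · push Not at hex
    rw [Finset.sum_eq_zero (fun i _ => hex i)]
    simp only [norm_zero, ne_eq, OfNat.ofNat_ne_zero, not_false_eq_true, zero_pow]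
    exact Finset.sum_nonneg fun i _ => sq_nonneg _

theorem row_le (hd : Data h E μ) (k : Fin n) (s : W) : ∑ t, h k s t ≤ 1 :=
  sum_le_one _ (fun t => hd.h1 k s t) (fun t t' => hd.hrow k s t t')

theorem col_le (hd : Data h E μ) (k : Fin n) (t : W) : ∑ s, h k s t ≤ 1 :=
  sum_le_one _ (fun s => hd.h1 k s t) (fun s s' => hd.hcol k s s' t)

theorem schur_le (hd : Data h E μ) (k : Fin n) (a b : W → ℝ) :
    ∑ s, ∑ t, h k s t * (a s * b t) ≤ √(∑ s, a s ^ 2) * √(∑ t, b t ^ 2) := by
  have h1 : ∑ s, ∑ t, h k s t * (a s * b t) =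
      ∑ p : W × W, (√(h k p.1 p.2) * a p.1) * (√(h k p.1 p.2) * b p.2) := by
    rw [Fintype.sum_prod_type]
    refine Finset.sum_congr rfl fun s _ => Finset.sum_congr rfl fun t _ => ?_
    have := Real.mul_self_sqrt (hd.h0 k s t)
    simp only
    linear_combination (-(a s * b t)) * this
  have h2 : ∑ p : W × W, (√(h k p.1 p.2) * a p.1) ^ 2 ≤ ∑ s, a s ^ 2 := by
    rw [Fintype.sum_prod_type]
    refine Finset.sum_le_sum fun s _ => ?_
    have : ∀ t, (√(h k s t) * a s) ^ 2 = h k s t * a s ^ 2 := fun t => by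
      rw [mul_pow, Real.sq_sqrt (hd.h0 k s t)]
    simp only [this]
    rw [← Finset.sum_mul]
    have := row_le hd k s
    nlinarith [sq_nonneg (a s)]
  have h3 : ∑ p : W × W, (√(h k p.1 p.2) * b p.2) ^ 2 ≤ ∑ t, b t ^ 2 := by
    rw [Fintype.sum_prod_type, Finset.sum_comm]
    refine Finset.sum_le_sum fun t _ => ?_
    have : ∀ s, (√(h k s t) * b t) ^ 2 = h k s t * b t ^ 2 := fun s => by
      rw [mul_pow, Real.sq_sqrt (hd.h0 k s t)]
    simp only [this]
    rw [← Finset.sum_mul]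
    have := col_le hd k t
    nlinarith [sq_nonneg (b t)]
  rw [h1]
  refine (Real.sum_mul_le_sqrt_mul_sqrt _ _ _).trans ?_
  exact mul_le_mul (Real.sqrt_le_sqrt h2) (Real.sqrt_le_sqrt h3) (Real.sqrt_nonneg _)
    (Real.sqrt_nonneg _)

/-- `φ y = ‖f(·,y)‖` -/
noncomputable def ph (f : W × F → ℂ) (y : F) : ℝ := √(∑ s, ‖f (s, y)‖ ^ 2)

theorem ph_sq (f : W × F → ℂ) (y : F) : ph f y ^ 2 = ∑ s, ‖f (s, y)‖ ^ 2 :=
  Real.sq_sqrt (Finset.sum_nonneg fun _ _ => sq_nonneg _)

theorem ph_nonneg (f : W × F → ℂ) (y : F) : 0 ≤ ph f y := Real.sqrt_nonneg _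

theorem sum_ph_sq (f : W × F → ℂ) : ∑ y, ph f y ^ 2 = ∑ p, ‖f p‖ ^ 2 := by
  simp only [ph_sq]
  rw [Fintype.sum_prod_type, Finset.sum_comm]

/-- the mixed form -/
noncomputable def qf (h : Fin n → W → W → ℝ) (f : W × F → ℂ) (k : Fin n) (y z : F) : ℝ :=
  ∑ s, ∑ t, h k s t * (star (f (s, y)) * f (t, z)).re

theorem abs_qf_le (hd : Data h E μ) (f : W × F → ℂ) (k : Fin n) (y z : F) :
    |qf h f k y z| ≤ ph f y * ph f z := by
  unfold qf
  refine le_trans ?_ (schur_le hd k (fun s => ‖f (s, y)‖) (fun t => ‖f (t, z)‖))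
  refine (Finset.abs_sum_le_sum_abs _ _).trans (Finset.sum_le_sum fun s _ => ?_)
  refine (Finset.abs_sum_le_sum_abs _ _).trans (Finset.sum_le_sum fun t _ => ?_)
  rw [abs_mul, abs_of_nonneg (hd.h0 k s t)]
  refine mul_le_mul_of_nonneg_left ?_ (hd.h0 k s t)
  refine (Complex.abs_re_le_norm _).trans ?_
  rw [norm_mul, norm_star]

theorem re_form (r : ℝ) (a b : ℂ) : (star a * (r : ℂ) * b).re = r * (star a * b).re := by
  simp only [Complex.mul_re, Complex.mul_im, Complex.ofReal_re, Complex.ofReal_im]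
  ring

theorem re_comm (a b : ℂ) : (star a * b).re = (star b * a).re := by
  simp only [Complex.mul_re, Complex.star_def, Complex.conj_re, Complex.conj_im]
  ring

theorem re_self (a : ℂ) : (star a * a).re = ‖a‖ ^ 2 := by
  rw [Complex.sq_norm, Complex.normSq_apply]
  simp only [Complex.mul_re, Complex.star_def, Complex.conj_re, Complex.conj_im]
  ring

/-- the quadratic form of `x` -/
theorem re_form_x (f : W × F → ℂ) :
    (∑ p, ∑ q, star (f p) * (xM h E μ p q : ℂ) * f q).re =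
      2 * ∑ k, ∑ y, ∑ z, cM E μ k y z * qf h f k y z := by
  have h1 : (∑ p, ∑ q, star (f p) * (xM h E μ p q : ℂ) * f q).re =
      ∑ p : W × F, ∑ q : W × F, xM h E μ p q * (star (f p) * f q).re := by
    rw [Complex.re_sum]
    refine Finset.sum_congr rfl fun p _ => ?_
    rw [Complex.re_sum]
    exact Finset.sum_congr rfl fun q _ => re_form _ _ _
  have h2 : ∑ p : W × F, ∑ q : W × F, xM h E μ p q * (star (f p) * f q).re =
      (∑ p : W × F, ∑ q : W × F, ∑ k, h k p.1 q.1 * cM E μ k p.2 q.2 * (star (f p) * f q).re) +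
      ∑ p : W × F, ∑ q : W × F, ∑ k, h k q.1 p.1 * cM E μ k q.2 p.2 * (star (f p) * f q).re := by
    rw [← Finset.sum_add_distrib]
    refine Finset.sum_congr rfl fun p _ => ?_
    rw [← Finset.sum_add_distrib]
    refine Finset.sum_congr rfl fun q _ => ?_
    rw [← Finset.sum_add_distrib, xM, Finset.sum_mul]
    exact Finset.sum_congr rfl fun k _ => by ring
  have h3 : ∑ p : W × F, ∑ q : W × F, ∑ k, h k q.1 p.1 * cM E μ k q.2 p.2 * (star (f p) * f q).re =
      ∑ p : W × F, ∑ q : W × F, ∑ k, h k p.1 q.1 * cM E μ k p.2 q.2 * (star (f p) * f q).re := by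
    rw [Finset.sum_comm]
    refine Finset.sum_congr rfl fun p _ => Finset.sum_congr rfl fun q _ =>
      Finset.sum_congr rfl fun k _ => ?_
    rw [re_comm (f q) (f p)]
  have h4 : ∑ p : W × F, ∑ q : W × F, ∑ k, h k p.1 q.1 * cM E μ k p.2 q.2 *
      (star (f p) * f q).re = ∑ k, ∑ y, ∑ z, cM E μ k y z * qf h f k y z := by
    calc ∑ p : W × F, ∑ q : W × F, ∑ k, h k p.1 q.1 * cM E μ k p.2 q.2 * (star (f p) * f q).re
        = ∑ p : W × F, ∑ k, ∑ q : W × F,
            h k p.1 q.1 * cM E μ k p.2 q.2 * (star (f p) * f q).re :=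
          Finset.sum_congr rfl fun p _ => Finset.sum_comm
      _ = ∑ k, ∑ p : W × F, ∑ q : W × F,
            h k p.1 q.1 * cM E μ k p.2 q.2 * (star (f p) * f q).re := Finset.sum_comm
      _ = ∑ k, ∑ y, ∑ z, cM E μ k y z * qf h f k y z := by
          refine Finset.sum_congr rfl fun k _ => ?_
          rw [Fintype.sum_prod_type, Finset.sum_comm]
          refine Finset.sum_congr rfl fun y _ => ?_
          have : ∀ s, (∑ q : W × F, h k s q.1 * cM E μ k y q.2 * (star (f (s, y)) * f q).re) =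
              ∑ z, ∑ t, h k s t * cM E μ k y z * (star (f (s, y)) * f (t, z)).re := by
            intro s
            rw [Fintype.sum_prod_type, Finset.sum_comm]
          simp only [this]
          rw [Finset.sum_comm]
          refine Finset.sum_congr rfl fun z _ => ?_
          rw [qf, Finset.mul_sum]
          refine Finset.sum_congr rfl fun s _ => ?_
          rw [Finset.mul_sum]
          exact Finset.sum_congr rfl fun t _ => by ring
  rw [h1, h2, h3, h4]
  ring

/-- the normalised function -/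
noncomputable def gg (μ : F → ℝ) (f : W × F → ℂ) (y : F) : ℝ := ph f y / √(μ y)

theorem gg_nonneg (f : W × F → ℂ) (y : F) : 0 ≤ gg μ f y :=
  div_nonneg (ph_nonneg f y) (Real.sqrt_nonneg _)

theorem wt_nonneg (hd : Data h E μ) (k : Fin n) (y z : F) : 0 ≤ wt E μ k y z := by
  unfold wt
  split_ifs
  · exact le_min (hd.μpos y).le (hd.μpos z).le
  · exact le_rfl

theorem cM_nonneg (hd : Data h E μ) (k : Fin n) (y z : F) : 0 ≤ cM E μ k y z :=
  div_nonneg (wt_nonneg hd k y z) (mul_nonneg (Real.sqrt_nonneg _) (Real.sqrt_nonneg _))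

theorem cM_mul (f : W × F → ℂ) (k : Fin n) (y z : F) :
    cM E μ k y z * (ph f y * ph f z) = wt E μ k y z * (gg μ f y * gg μ f z) := by
  unfold cM gg
  ring

theorem abs_form_x_le (hd : Data h E μ) (f : W × F → ℂ) :
    |(∑ p, ∑ q, star (f p) * (xM h E μ p q : ℂ) * f q).re| ≤
      2 * ∑ k, ∑ y, ∑ z, wt E μ k y z * (gg μ f y * gg μ f z) := by
  rw [re_form_x, abs_mul, abs_of_pos (show (0 : ℝ) < 2 by norm_num)]
  refine mul_le_mul_of_nonneg_left ?_ (by norm_num)
  refine (Finset.abs_sum_le_sum_abs _ _).trans (Finset.sum_le_sum fun k _ => ?_)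
  refine (Finset.abs_sum_le_sum_abs _ _).trans (Finset.sum_le_sum fun y _ => ?_)
  refine (Finset.abs_sum_le_sum_abs _ _).trans (Finset.sum_le_sum fun z _ => ?_)
  rw [abs_mul, abs_of_nonneg (cM_nonneg hd k y z), ← cM_mul]
  exact mul_le_mul_of_nonneg_left (abs_qf_le hd f k y z) (cM_nonneg hd k y z)

theorem deg_mul (hd : Data h E μ) (f : W × F → ℂ) :
    ∑ y, deg E μ y * ph f y ^ 2 =
      ∑ k, ∑ y, ∑ z, wt E μ k y z * (gg μ f y ^ 2 + gg μ f z ^ 2) := by
  have h0 : ∀ y, ph f y ^ 2 = μ y * gg μ f y ^ 2 := by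
    intro y
    unfold gg
    rw [div_pow, Real.sq_sqrt (hd.μpos y).le, mul_div_cancel₀ _ (hd.μpos y).ne']
  have h1 : ∀ y, deg E μ y * ph f y ^ 2 =
      ∑ k, ∑ z, (wt E μ k y z + wt E μ k z y) * gg μ f y ^ 2 := by
    intro y
    have hμ := (hd.μpos y).ne'
    rw [h0 y, deg]
    have : (∑ k, ∑ z, (wt E μ k y z + wt E μ k z y)) / μ y * (μ y * gg μ f y ^ 2) =
        (∑ k, ∑ z, (wt E μ k y z + wt E μ k z y)) * gg μ f y ^ 2 := by
      field_simp
    rw [this, Finset.sum_mul]
    refine Finset.sum_congr rfl fun k _ => ?_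
    rw [Finset.sum_mul]
  simp only [h1]
  rw [Finset.sum_comm]
  refine Finset.sum_congr rfl fun k _ => ?_
  have h2 : ∑ y, ∑ z, (wt E μ k y z + wt E μ k z y) * gg μ f y ^ 2 =
      (∑ y, ∑ z, wt E μ k y z * gg μ f y ^ 2) + ∑ y, ∑ z, wt E μ k z y * gg μ f y ^ 2 := by
    rw [← Finset.sum_add_distrib]
    refine Finset.sum_congr rfl fun y _ => ?_
    rw [← Finset.sum_add_distrib]
    exact Finset.sum_congr rfl fun z _ => by ring
  rw [h2, Finset.sum_comm (f := fun y z => wt E μ k z y * gg μ f y ^ 2), ← Finset.sum_add_distrib]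
  refine Finset.sum_congr rfl fun y _ => ?_
  rw [← Finset.sum_add_distrib]
  exact Finset.sum_congr rfl fun z _ => by ring

theorem wt_le_left (hd : Data h E μ) (k : Fin n) (y z : F) : wt E μ k y z ≤ μ y := by
  unfold wt
  split_ifs
  · exact min_le_left _ _
  · exact (hd.μpos y).le

theorem wt_le_right (hd : Data h E μ) (k : Fin n) (y z : F) : wt E μ k y z ≤ μ z := by
  unfold wt
  split_ifs
  · exact min_le_right _ _
  · exact (hd.μpos z).le

theorem deg_le_aux (hd : Data h E μ) (y : F) : deg E μ y ≤ 2 * n := by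
  have hμ := hd.μpos y
  unfold deg
  rw [div_le_iff₀ hμ]
  have h1 : ∀ k : Fin n, ∑ z, wt E μ k y z ≤ μ y := by
    intro k
    have : ∑ z, wt E μ k y z / μ y ≤ 1 := by
      refine sum_le_one _ (fun z => ?_) (fun z z' hz hz' => ?_)
      · rw [div_le_one hμ]; exact wt_le_left hd k y z
      · have e1 : E k y z := by
          by_contra hc
          exact hz (by simp [wt, hc])
        have e2 : E k y z' := by
          by_contra hc
          exact hz' (by simp [wt, hc])
        exact hd.Erow k y z z' e1 e2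
    rw [← Finset.sum_div, div_le_one hμ] at this
    exact this
  have h2 : ∀ k : Fin n, ∑ z, wt E μ k z y ≤ μ y := by
    intro k
    have : ∑ z, wt E μ k z y / μ y ≤ 1 := by
      refine sum_le_one _ (fun z => ?_) (fun z z' hz hz' => ?_)
      · rw [div_le_one hμ]; exact wt_le_right hd k z y
      · have e1 : E k z y := by
          by_contra hc
          exact hz (by simp [wt, hc])
        have e2 : E k z' y := by
          by_contra hc
          exact hz' (by simp [wt, hc])
        exact hd.Ecol k z z' y e1 e2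
    rw [← Finset.sum_div, div_le_one hμ] at this
    exact this
  calc ∑ k, ∑ z, (wt E μ k y z + wt E μ k z y)
      = ∑ k : Fin n, (∑ z, wt E μ k y z + ∑ z, wt E μ k z y) :=
        Finset.sum_congr rfl fun k _ => Finset.sum_add_distrib
    _ ≤ ∑ _k : Fin n, (μ y + μ y) := Finset.sum_le_sum fun k _ => add_le_add (h1 k) (h2 k)
    _ = 2 * n * μ y := by
        rw [Finset.sum_const, Finset.card_univ, Fintype.card_fin, nsmul_eq_mul]; ring

theorem deg_sum_le (hd : Data h E μ) (f : W × F → ℂ) :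
    ∑ y, deg E μ y * ph f y ^ 2 ≤ 2 * n * ∑ p, ‖f p‖ ^ 2 := by
  rw [← sum_ph_sq, Finset.mul_sum]
  exact Finset.sum_le_sum fun y _ => mul_le_mul_of_nonneg_right (deg_le_aux hd y) (sq_nonneg _)

theorem re_form_a (f : W × F → ℂ) :
    (∑ p, ∑ q, star (f p) * (aM h E μ p q : ℂ) * f q).re =
      (∑ y, deg E μ y * ph f y ^ 2 -
        (∑ p, ∑ q, star (f p) * (xM h E μ p q : ℂ) * f q).re) / (4 * n) := by
  classical
  have h1 : (∑ p, ∑ q, star (f p) * (aM h E μ p q : ℂ) * f q).re =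
      ∑ p : W × F, ∑ q : W × F, aM h E μ p q * (star (f p) * f q).re := by
    rw [Complex.re_sum]
    refine Finset.sum_congr rfl fun p _ => ?_
    rw [Complex.re_sum]
    exact Finset.sum_congr rfl fun q _ => re_form _ _ _
  have h2 : (∑ p, ∑ q, star (f p) * (xM h E μ p q : ℂ) * f q).re =
      ∑ p : W × F, ∑ q : W × F, xM h E μ p q * (star (f p) * f q).re := by
    rw [Complex.re_sum]
    refine Finset.sum_congr rfl fun p _ => ?_
    rw [Complex.re_sum]
    exact Finset.sum_congr rfl fun q _ => re_form _ _ _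
  have h3 : ∑ y, deg E μ y * ph f y ^ 2 =
      ∑ p : W × F, ∑ q : W × F, (if p = q then deg E μ p.2 else 0) * (star (f p) * f q).re := by
    rw [Fintype.sum_prod_type, Finset.sum_comm]
    refine Finset.sum_congr rfl fun y _ => ?_
    rw [ph_sq, Finset.mul_sum]
    refine Finset.sum_congr rfl fun s _ => ?_
    rw [Finset.sum_eq_single (s, y)]
    · rw [if_pos rfl, re_self]
    · intro q _ hq
      rw [if_neg (fun e => hq e.symm), zero_mul]
    · intro hh; exact absurd (Finset.mem_univ _) hh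
  rw [h1, h2, h3, ← Finset.sum_sub_distrib, Finset.sum_div]
  refine Finset.sum_congr rfl fun p _ => ?_
  rw [← Finset.sum_sub_distrib, Finset.sum_div]
  refine Finset.sum_congr rfl fun q _ => ?_
  unfold aM
  have : (if p = q then deg E μ p.2 else 0) = @ite ℝ (p = q) (Classical.propDecidable _)
      (deg E μ p.2) 0 := by congr
  rw [this]
  ring

end LA2

open LA2

/-- LA2a: lower bound for the quadratic form of `A`, `φ y = ‖f(·,y)‖` -/
theorem form_lower (hd : Data h E μ) (f : W × F → ℂ) :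
    (∑ k, ∑ y, ∑ z, wt E μ k y z *
      (√(∑ s, ‖f (s, y)‖ ^ 2) / √(μ y) - √(∑ s, ‖f (s, z)‖ ^ 2) / √(μ z)) ^ 2) / (4 * n) ≤
    (∑ p, ∑ q, star (f p) * (aM h E μ p q : ℂ) * f q).re := by
  rw [re_form_a]
  have hn : (0 : ℝ) < 4 * n := by
    have := hd.npos
    positivity
  refine div_le_div_of_nonneg_right ?_ hn.le
  have h1 := abs_form_x_le hd f
  have h2 := le_of_abs_le h1
  have h3 : ∑ k, ∑ y, ∑ z, wt E μ k y z *
      (√(∑ s, ‖f (s, y)‖ ^ 2) / √(μ y) - √(∑ s, ‖f (s, z)‖ ^ 2) / √(μ z)) ^ 2 =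
      ∑ y, deg E μ y * ph f y ^ 2 -
        2 * ∑ k, ∑ y, ∑ z, wt E μ k y z * (gg μ f y * gg μ f z) := by
    rw [deg_mul hd, Finset.mul_sum, ← Finset.sum_sub_distrib]
    refine Finset.sum_congr rfl fun k _ => ?_
    rw [Finset.mul_sum, ← Finset.sum_sub_distrib]
    refine Finset.sum_congr rfl fun y _ => ?_
    rw [Finset.mul_sum, ← Finset.sum_sub_distrib]
    refine Finset.sum_congr rfl fun z _ => ?_
    unfold gg ph
    ring
  rw [h3]
  linarith

/-- LA2b: upper bound -/
theorem form_upper (hd : Data h E μ) (f : W × F → ℂ) :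
    (∑ p, ∑ q, star (f p) * (aM h E μ p q : ℂ) * f q).re ≤ ∑ p, ‖f p‖ ^ 2 := by
  rw [re_form_a]
  have hn : (0 : ℝ) < 4 * n := by
    have := hd.npos
    positivity
  rw [div_le_iff₀ hn]
  have h1 := abs_form_x_le hd f
  have h2 := neg_le_of_abs_le h1
  have h3 : 2 * ∑ k, ∑ y, ∑ z, wt E μ k y z * (gg μ f y * gg μ f z) ≤
      ∑ y, deg E μ y * ph f y ^ 2 := by
    rw [deg_mul hd, Finset.mul_sum]
    refine Finset.sum_le_sum fun k _ => ?_
    rw [Finset.mul_sum]
    refine Finset.sum_le_sum fun y _ => ?_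
    rw [Finset.mul_sum]
    refine Finset.sum_le_sum fun z _ => ?_
    have := wt_nonneg hd k y z
    nlinarith [mul_nonneg this (sq_nonneg (gg μ f y - gg μ f z))]
  have h4 := deg_sum_le hd f
  linarith

/-- LA2c: bounds for the quadratic form of `x` -/
theorem form_x (hd : Data h E μ) (f : W × F → ℂ) :
    |(∑ p, ∑ q, star (f p) * (xM h E μ p q : ℂ) * f q).re| ≤ 2 * n * ∑ p, ‖f p‖ ^ 2 := by
  refine (abs_form_x_le hd f).trans ?_
  refine le_trans ?_ (deg_sum_le hd f)
  rw [deg_mul hd, Finset.mul_sum]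
  refine Finset.sum_le_sum fun k _ => ?_
  rw [Finset.mul_sum]
  refine Finset.sum_le_sum fun y _ => ?_
  rw [Finset.mul_sum]
  refine Finset.sum_le_sum fun z _ => ?_
  have := wt_nonneg hd k y z
  nlinarith [mul_nonneg this (sq_nonneg (gg μ f y - gg μ f z))]

/-- LA2d: hermitian matrices -/
theorem xM_symm (p q : W × F) : xM h E μ p q = xM h E μ q p := by
  unfold xM
  exact Finset.sum_congr rfl fun k _ => add_comm _ _

theorem aM_symm (p q : W × F) : aM h E μ p q = aM h E μ q p := by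
  unfold aM
  rw [xM_symm p q]
  by_cases hpq : p = q
  · subst hpq; rfl
  · rw [if_neg hpq, if_neg (fun e => hpq e.symm)]

/-- LA2e: the norm of `c_k` is at most one -/
theorem norm_cM_le [DecidableEq F] (hd : Data h E μ) (k : Fin n) :
    ‖(Matrix.toEuclideanCLM (n := F) (𝕜 := ℂ) (Matrix.of fun y z => (cM E μ k y z : ℂ)) :
      EuclideanSpace ℂ F →L[ℂ] EuclideanSpace ℂ F)‖ ≤ 1 := by
  have hc1 : ∀ y z, cM E μ k y z ≤ 1 := by
    intro y z
    unfold cM
    have hy := Real.sqrt_pos.mpr (hd.μpos y)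
    have hz := Real.sqrt_pos.mpr (hd.μpos z)
    rw [div_le_one (mul_pos hy hz)]
    have h1 : wt E μ k y z ^ 2 ≤ (√(μ y) * √(μ z)) ^ 2 := by
      rw [mul_pow, Real.sq_sqrt (hd.μpos y).le, Real.sq_sqrt (hd.μpos z).le, sq]
      exact mul_le_mul (wt_le_left hd k y z) (wt_le_right hd k y z) (wt_nonneg hd k y z)
        (hd.μpos y).le
    exact (pow_le_pow_iff_left₀ (wt_nonneg hd k y z) (mul_pos hy hz).le two_ne_zero).mp h1
  have hE : ∀ y z, cM E μ k y z ≠ 0 → E k y z := by
    intro y z hyz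
    by_contra hc
    exact hyz (by simp [cM, wt, hc])
  refine ContinuousLinearMap.opNorm_le_bound _ zero_le_one fun v => ?_
  rw [one_mul, EuclideanSpace.norm_eq, EuclideanSpace.norm_eq]
  refine Real.sqrt_le_sqrt ?_
  have h1 : ∀ y, ‖(Matrix.toEuclideanCLM (n := F) (𝕜 := ℂ)
      (Matrix.of fun y z => (cM E μ k y z : ℂ)) v) y‖ ^ 2 ≤
      ∑ z, cM E μ k y z ^ 2 * ‖v z‖ ^ 2 := by
    intro y
    have e : (Matrix.toEuclideanCLM (n := F) (𝕜 := ℂ)
      (Matrix.of fun y z => (cM E μ k y z : ℂ)) v) y = ∑ z, (cM E μ k y z : ℂ) * v z := by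
      rfl
    rw [e]
    refine (sq_sum_le _ ?_).trans (le_of_eq ?_)
    · intro z z' hz hz'
      have e1 : cM E μ k y z ≠ 0 := by
        intro h0; exact hz (by simp [h0])
      have e2 : cM E μ k y z' ≠ 0 := by
        intro h0; exact hz' (by simp [h0])
      exact hd.Erow k y z z' (hE _ _ e1) (hE _ _ e2)
    · refine Finset.sum_congr rfl fun z _ => ?_
      rw [norm_mul, mul_pow, Complex.norm_real, Real.norm_eq_abs, sq_abs]
  refine (Finset.sum_le_sum fun y _ => h1 y).trans ?_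
  rw [Finset.sum_comm]
  refine Finset.sum_le_sum fun z _ => ?_
  rw [← Finset.sum_mul]
  have h2 : ∑ y, cM E μ k y z ^ 2 ≤ 1 := by
    refine sum_le_one _ (fun y => ?_) (fun y y' hy hy' => ?_)
    · have := hc1 y z
      have := cM_nonneg hd k y z
      nlinarith
    · have e1 : cM E μ k y z ≠ 0 := by
        intro h0; exact hy (by simp [h0])
      have e2 : cM E μ k y' z ≠ 0 := by
        intro h0; exact hy' (by simp [h0])
      exact hd.Ecol k y y' z (hE _ _ e1) (hE _ _ e2)
  nlinarith [sq_nonneg ‖v z‖]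

end Key

end Pool.Agent.KW
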