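import Pool.Agent.Helper98.KW.LA1
import Pool.Agent.Helper71.KW.LA2
import Pool.Agent.Helper73.KW.LA3

/-!
# Piece LA4 of MP_715b63_an : the key estimate
-/

open CategoryTheory Topology
open scoped ENNReal

set_option linter.unusedSectionVars false

namespace Pool.Agent.KW

universe u v

namespace Key

variable {n : ℕ} {W F : Type u} [Fintype W] [Fintype F] {h : Fin n → W → W → ℝ}
  {E : Fin n → F → F → Prop} {μ : F → ℝ}

namespace LA4

/-- norm of a symmetric operator from its quadratic form -/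
theorem norm_le_of_form {H : Type*} [NormedAddCommGroup H] [InnerProductSpace ℂ H]
    (T : H →L[ℂ] H) (hT : ∀ x y, inner ℂ (T x) y = inner ℂ x (T y)) (c : ℝ) (hc : 0 < c)
    (hb : ∀ x, |(inner ℂ x (T x)).re| ≤ c * ‖x‖ ^ 2) : ‖T‖ ≤ c := by
  refine ContinuousLinearMap.opNorm_le_bound _ hc.le fun v => ?_
  set w := T v with hw
  set s : ℝ := c⁻¹ with hs
  have h1 := le_of_abs_le (hb (v + (s : ℂ) • w))
  have h2 := neg_le_of_abs_le (hb (v - (s : ℂ) • w))
  have e1 : (inner ℂ (v + (s : ℂ) • w) (T (v + (s : ℂ) • w))).re -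
      (inner ℂ (v - (s : ℂ) • w) (T (v - (s : ℂ) • w))).re = 4 * s * ‖w‖ ^ 2 := by
    rw [map_add, map_sub, map_smul, ← hw]
    simp only [inner_add_left, inner_add_right, inner_sub_left, inner_sub_right,
      inner_smul_left, inner_smul_right, Complex.conj_ofReal]
    have e2 : inner ℂ v (T w) = inner ℂ w w := by
      rw [← hT, ← hw]
    have e3 : (inner ℂ w w).re = ‖w‖ ^ 2 := inner_self_eq_norm_sq (𝕜 := ℂ) w
    have e4 : (inner ℂ w w).im = 0 := inner_self_im (𝕜 := ℂ) w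
    rw [e2]
    simp only [Complex.add_re, Complex.sub_re, Complex.mul_re, Complex.ofReal_re,
      Complex.ofReal_im, e3, e4]
    ring
  have e5 : ‖v + (s : ℂ) • w‖ ^ 2 + ‖v - (s : ℂ) • w‖ ^ 2 = 2 * (‖v‖ ^ 2 + s ^ 2 * ‖w‖ ^ 2) := by
    have := parallelogram_law_with_norm ℂ v ((s : ℂ) • w)
    have e6 : ‖(s : ℂ) • w‖ = |s| * ‖w‖ := by
      rw [norm_smul, Complex.norm_real, Real.norm_eq_abs]
    rw [this, e6, mul_pow, sq_abs]
  have h3 : 4 * s * ‖w‖ ^ 2 ≤ 2 * c * (‖v‖ ^ 2 + s ^ 2 * ‖w‖ ^ 2) := by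
    have : c * (‖v + (s : ℂ) • w‖ ^ 2 + ‖v - (s : ℂ) • w‖ ^ 2) =
        c * (2 * (‖v‖ ^ 2 + s ^ 2 * ‖w‖ ^ 2)) := by rw [e5]
    nlinarith
  have hcs : c * s = 1 := mul_inv_cancel₀ hc.ne'
  have h4 : ‖w‖ ^ 2 ≤ (c * ‖v‖) ^ 2 := by
    have h5 : c * (4 * s * ‖w‖ ^ 2) ≤ c * (2 * c * (‖v‖ ^ 2 + s ^ 2 * ‖w‖ ^ 2)) :=
      mul_le_mul_of_nonneg_left h3 hc.le
    have h6 : c * (4 * s * ‖w‖ ^ 2) = 4 * ‖w‖ ^ 2 := by
      linear_combination (4 * ‖w‖ ^ 2) * hcs
    have h7 : c * (2 * c * (‖v‖ ^ 2 + s ^ 2 * ‖w‖ ^ 2)) = 2 * (c * ‖v‖) ^ 2 + 2 * ‖w‖ ^ 2 := by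
      linear_combination (2 * ‖w‖ ^ 2 * (c * s + 1)) * hcs
    linarith
  exact (pow_le_pow_iff_left₀ (norm_nonneg _) (mul_nonneg hc.le (norm_nonneg _)) two_ne_zero).mp h4

theorem pow_inst {ι : Type*} [Fintype ι] (D1 D2 : DecidableEq ι) (M : Matrix ι ι ℂ) (j : ℕ)
    (q r : ι) : (letI := D1; ((1 - M) ^ j) q r) = (letI := D2; ((1 - M) ^ j) q r) := by
  have e : D1 = D2 := Subsingleton.elim _ _
  subst e
  rfl

theorem clm_apply {ι : Type*} [Fintype ι] [DecidableEq ι] (M : Matrix ι ι ℂ)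
    (v : EuclideanSpace ℂ ι) (p : ι) :
    (Matrix.toEuclideanCLM (n := ι) (𝕜 := ℂ) M v) p = ∑ q, M p q * v q := rfl

theorem inner_clm {ι : Type*} [Fintype ι] [DecidableEq ι] (M : Matrix ι ι ℂ)
    (v w : EuclideanSpace ℂ ι) :
    inner ℂ v (Matrix.toEuclideanCLM (n := ι) (𝕜 := ℂ) M w) =
      ∑ p, ∑ q, star (v p) * M p q * w q := by
  rw [PiLp.inner_apply]
  refine Finset.sum_congr rfl fun p _ => ?_
  rw [clm_apply, RCLike.inner_apply, Finset.sum_mul]
  refine Finset.sum_congr rfl fun q _ => ?_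
  change M p q * w q * star (v p) = _
  ring

/-- norm of a hermitian matrix from its quadratic form -/
theorem norm_le_of_quad {ι : Type*} [Fintype ι] [DecidableEq ι] (M : Matrix ι ι ℂ)
    (hM : ∀ p q, star (M p q) = M q p) (c : ℝ) (hc : 0 < c)
    (h1 : ∀ f : ι → ℂ, (∑ p, ∑ q, star (f p) * M p q * f q).re ≤ c * ∑ p, ‖f p‖ ^ 2)
    (h2 : ∀ f : ι → ℂ, -(c * ∑ p, ‖f p‖ ^ 2) ≤ (∑ p, ∑ q, star (f p) * M p q * f q).re) :
    ‖(Matrix.toEuclideanCLM (n := ι) (𝕜 := ℂ) M :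
      EuclideanSpace ℂ ι →L[ℂ] EuclideanSpace ℂ ι)‖ ≤ c := by
  refine norm_le_of_form _ ?_ c hc ?_
  · intro x y
    have e1 : inner ℂ (Matrix.toEuclideanCLM (n := ι) (𝕜 := ℂ) M x) y =
      (starRingEnd ℂ) (inner ℂ y (Matrix.toEuclideanCLM (n := ι) (𝕜 := ℂ) M x)) :=
      (inner_conj_symm _ _).symm
    rw [e1, inner_clm, inner_clm]
    simp only [map_sum, map_mul]
    rw [Finset.sum_comm]
    refine Finset.sum_congr rfl fun q _ => Finset.sum_congr rfl fun p _ => ?_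
    rw [← hM p q]
    simp only [Complex.star_def, Complex.conj_conj]
    ring
  · intro x
    rw [inner_clm, EuclideanSpace.norm_sq_eq, abs_le]
    exact ⟨h2 _, h1 _⟩

/-- quadratic form of a matrix with a diagonal part -/
theorem quad_diag_sub {ι : Type*} [Fintype ι] [DecidableEq ι] (d : ι → ℝ) (P : Matrix ι ι ℂ)
    (f : ι → ℂ) :
    (∑ y, ∑ z, star (f y) * ((if y = z then ((d y : ℝ) : ℂ) else 0) - 2 * P y z) * f z).re =
      ∑ y, d y * ‖f y‖ ^ 2 - 2 * (∑ y, ∑ z, star (f y) * P y z * f z).re := by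
  have h1 : ∑ y, ∑ z, star (f y) * ((if y = z then ((d y : ℝ) : ℂ) else 0) - 2 * P y z) * f z =
      ∑ y, star (f y) * (d y : ℂ) * f y - 2 * ∑ y, ∑ z, star (f y) * P y z * f z := by
    rw [Finset.mul_sum, ← Finset.sum_sub_distrib]
    refine Finset.sum_congr rfl fun y _ => ?_
    rw [Finset.mul_sum]
    have : ∀ z, star (f y) * ((if y = z then ((d y : ℝ) : ℂ) else 0) - 2 * P y z) * f z =
        (if y = z then star (f y) * (d y : ℂ) * f z else 0) - 2 * (star (f y) * P y z * f z) := by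
      intro z
      split_ifs <;> ring
    simp only [this]
    rw [Finset.sum_sub_distrib, Finset.sum_ite_eq, if_pos (Finset.mem_univ _)]
  rw [h1, Complex.sub_re, Complex.re_sum]
  congr 1
  · exact Finset.sum_congr rfl fun y _ => by rw [LA2.re_form, LA2.re_self]
  · simp

/-- quadratic form of `Y` -/
theorem quad_yM [DecidableEq W] [DecidableEq F] (u : W → ℝ) (B₀ : Matrix F F ℂ)
    (f : W × F → ℂ) :
    (∑ p, ∑ q, star (f p) * yM h E μ u B₀ p q * f q).re =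
      (∑ p, ∑ q, star (f p) * (xM h E μ p q : ℂ) * f q).re / (4 * n) +
        ∑ s, u s * (∑ y, ∑ z, star (f (s, y)) * B₀ y z * f (s, z)).re := by
  have h1 : ∑ p, ∑ q, star (f p) * yM h E μ u B₀ p q * f q =
      ((4 * n : ℝ)⁻¹ : ℂ) * (∑ p, ∑ q, star (f p) * (xM h E μ p q : ℂ) * f q) +
        ∑ s, (u s : ℂ) * ∑ y, ∑ z, star (f (s, y)) * B₀ y z * f (s, z) := by
    have h2 : ∀ p q : W × F, star (f p) * yM h E μ u B₀ p q * f q =
        ((4 * n : ℝ)⁻¹ : ℂ) * (star (f p) * (xM h E μ p q : ℂ) * f q) +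
          (if p.1 = q.1 then (u p.1 : ℂ) * (star (f p) * B₀ p.2 q.2 * f q) else 0) := by
      intro p q
      unfold yM
      push_cast
      split_ifs
      · rw [div_eq_mul_inv]; ring
      · rw [div_eq_mul_inv]; ring
    simp only [h2, Finset.sum_add_distrib, ← Finset.mul_sum]
    congr 1
    rw [Fintype.sum_prod_type]
    refine Finset.sum_congr rfl fun s _ => ?_
    rw [Finset.mul_sum]
    refine Finset.sum_congr rfl fun y _ => ?_
    rw [Fintype.sum_prod_type, Finset.sum_comm, Finset.mul_sum]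
    refine Finset.sum_congr rfl fun z _ => ?_
    rw [Finset.sum_ite_eq, if_pos (Finset.mem_univ _)]
  rw [h1, Complex.add_re, Complex.re_sum]
  congr 1
  · rw [← Complex.ofReal_inv, Complex.re_ofReal_mul]
    ring
  · refine Finset.sum_congr rfl fun s _ => ?_
    rw [Complex.re_ofReal_mul]

end LA4

open LA4

/-- LA4: the key estimate (from LA1, LA2, LA3; `B₀ = 3 + c₁ - D/(4n) - 2 P₁`, `c₁ = κ/32`,
`κ = ε²/(16 n²)`) -/
theorem key [DecidableEq W] [DecidableEq F] [Nonempty F] (hd : Data h E μ) {ε : ℝ} (hε : 0 < ε)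
    (hε1 : ε ≤ 1) (t : ℕ) (hE : Expanding E μ ε ((2 * n + 1) ^ t))
    (u : W → ℝ) (hu0 : ∀ s, 0 ≤ u s) (hu1 : ∀ s, u s ≤ 1)
    (ht : 4 * (Fintype.card W : ℝ) ^ 2 * (1 - ε ^ 2 / (32 * n ^ 2)) ^ t
      ≤ ε ^ 2 / (512 * n ^ 2)) :
    ∃ B₀ : Matrix F F ℂ,
      ‖(Matrix.toEuclideanCLM (n := F) (𝕜 := ℂ) B₀ :
        EuclideanSpace ℂ F →L[ℂ] EuclideanSpace ℂ F)‖ ≤ 4 ∧
      ‖(Matrix.toEuclideanCLM (n := W × F) (𝕜 := ℂ) (Matrix.of (yM h E μ u B₀)) :
        EuclideanSpace ℂ (W × F) →L[ℂ] EuclideanSpace ℂ (W × F))‖ ≤ 3 ∧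
      3 + ε ^ 2 / (1024 * n ^ 2) ≤
        (∑ y, μ y * ((B₀ y y).re + deg E μ y / (4 * n))) / ∑ y, μ y := by
  have hn0 : 0 < n := hd.npos
  have hn : (1 : ℝ) ≤ n := by exact_mod_cast hn0
  have hn' : (0 : ℝ) < n := by linarith
  set κ : ℝ := ε ^ 2 / (16 * n ^ 2) with hκdef
  have hκ0 : 0 < κ := by positivity
  have hκ1 : κ ≤ 1 := by
    rw [hκdef, div_le_one (by positivity)]
    nlinarith
  set A : Matrix (W × F) (W × F) ℂ := Matrix.of fun p q => (aM h E μ p q : ℂ) with hA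
  have hAentry : ∀ p q, A p q = (aM h E μ p q : ℂ) := fun p q => rfl
  have hAh : A.IsHermitian := by
    refine Matrix.IsHermitian.ext fun p q => ?_
    rw [hAentry, hAentry, aM_symm p q, Complex.star_def, Complex.conj_ofReal]
  have hlow : ∀ f : W × F → ℂ, 0 ≤ (∑ p, ∑ q, star (f p) * A p q * f q).re := by
    intro f
    refine le_trans ?_ (form_lower hd f)
    refine div_nonneg ?_ (by positivity)
    refine Finset.sum_nonneg fun k _ => Finset.sum_nonneg fun y _ => Finset.sum_nonneg fun z _ => ?_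
    exact mul_nonneg (LA2.wt_nonneg hd k y z) (sq_nonneg _)
  have hκ : ∀ r : W × F, ∀ j < t, κ * ∑ p, ‖((1 - A) ^ j) p r‖ ^ 2 ≤
      (∑ p, ∑ q, star (((1 - A) ^ j) p r) * A p q * ((1 - A) ^ j) q r).re := by
    intro r j hj
    set f : W × F → ℂ := fun p => ((1 - A) ^ j) p r with hf
    obtain ⟨P, hPc, hP⟩ := support_pow hd r j
    have hP' : ∀ q : W × F, q.2 ∉ P → f q = 0 := by
      intro q hq
      have := hP q hq
      exact (pow_inst _ _ A j q r).trans this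
    have hPS : P.card ≤ (2 * n + 1) ^ t :=
      hPc.trans (Nat.pow_le_pow_right (by omega) hj.le)
    have hg0 : ∀ y ∉ P, LA2.gg μ f y = 0 := by
      intro y hy
      have : LA2.ph f y = 0 := by
        unfold LA2.ph
        have : ∑ s, ‖f (s, y)‖ ^ 2 = 0 :=
          Finset.sum_eq_zero fun s _ => by rw [hP' (s, y) hy]; simp
        rw [this, Real.sqrt_zero]
      unfold LA2.gg
      rw [this, zero_div]
    have hch := cheeger hd hε hE (LA2.gg μ f) (fun y => LA2.gg_nonneg f y) P hPS hg0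
    have h1 : ∑ y, μ y * LA2.gg μ f y ^ 2 = ∑ p, ‖f p‖ ^ 2 := by
      rw [← LA2.sum_ph_sq]
      refine Finset.sum_congr rfl fun y _ => ?_
      unfold LA2.gg
      rw [div_pow, Real.sq_sqrt (hd.μpos y).le, mul_div_cancel₀ _ (hd.μpos y).ne']
    rw [h1] at hch
    have h2 := form_lower hd f
    have h3 : κ * ∑ p, ‖f p‖ ^ 2 = (ε ^ 2 / (4 * n) * ∑ p, ‖f p‖ ^ 2) / (4 * n) := by
      rw [hκdef]
      field_simp
      ring
    change κ * ∑ p, ‖f p‖ ^ 2 ≤ (∑ p, ∑ q, star (f p) * (aM h E μ p q : ℂ) * f q).re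
    rw [h3]
    refine le_trans ?_ h2
    refine div_le_div_of_nonneg_right ?_ (by positivity)
    exact hch
  obtain ⟨P₁, hPh, hP0, hP1, hPd, hPA⟩ :=
    exists_small_diagonal A hAh hlow (fun f => form_upper hd f) κ hκ0 hκ1 t hκ
  set c₁ : ℝ := κ / 32 with hc₁
  have hc₁e : c₁ = ε ^ 2 / (512 * n ^ 2) := by
    rw [hc₁, hκdef]; field_simp; norm_num
  have hc₁0 : 0 < c₁ := by positivity
  have hc₁1 : c₁ ≤ 1 := by rw [hc₁]; linarith
  set B₀ : Matrix F F ℂ := Matrix.of fun y z =>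
    (if y = z then ((3 + c₁ - deg E μ y / (4 * n) : ℝ) : ℂ) else 0) - 2 * P₁ y z with hB₀
  have hBe : ∀ y z, B₀ y z =
    (if y = z then ((3 + c₁ - deg E μ y / (4 * n) : ℝ) : ℂ) else 0) - 2 * P₁ y z :=
    fun y z => rfl
  have hdeg0 : ∀ y, 0 ≤ deg E μ y / (4 * n) := fun y => div_nonneg (deg_le hd y).1 (by positivity)
  have hdeg1 : ∀ y, deg E μ y / (4 * n) ≤ 1 / 2 := by
    intro y
    rw [div_le_iff₀ (by positivity)]
    linarith [(deg_le hd y).2]
  have hquadB : ∀ f : F → ℂ, (∑ y, ∑ z, star (f y) * B₀ y z * f z).re =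
      ∑ y, (3 + c₁ - deg E μ y / (4 * n)) * ‖f y‖ ^ 2 -
        2 * (∑ y, ∑ z, star (f y) * P₁ y z * f z).re := fun f => quad_diag_sub _ P₁ f
  have hBlow : ∀ f : F → ℂ, 0 ≤ (∑ y, ∑ z, star (f y) * B₀ y z * f z).re := by
    intro f
    rw [hquadB]
    have h1 := hP1 f
    have h2 : 2 * ∑ y, ‖f y‖ ^ 2 ≤ ∑ y, (3 + c₁ - deg E μ y / (4 * n)) * ‖f y‖ ^ 2 := by
      rw [Finset.mul_sum]
      refine Finset.sum_le_sum fun y _ => mul_le_mul_of_nonneg_right ?_ (sq_nonneg _)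
      linarith [hdeg1 y]
    linarith
  have hBup : ∀ f : F → ℂ, (∑ y, ∑ z, star (f y) * B₀ y z * f z).re ≤ 4 * ∑ y, ‖f y‖ ^ 2 := by
    intro f
    rw [hquadB]
    have h1 := hP0 f
    have h2 : ∑ y, (3 + c₁ - deg E μ y / (4 * n)) * ‖f y‖ ^ 2 ≤ 4 * ∑ y, ‖f y‖ ^ 2 := by
      rw [Finset.mul_sum]
      refine Finset.sum_le_sum fun y _ => mul_le_mul_of_nonneg_right ?_ (sq_nonneg _)
      linarith [hdeg0 y]
    linarith
  have hBh : ∀ y z, star (B₀ y z) = B₀ z y := by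
    intro y z
    rw [hBe, hBe, ← hPh.apply z y]
    by_cases hyz : y = z
    · subst hyz
      simp
    · have hzy : ¬ z = y := fun e => hyz e.symm
      simp [hyz, hzy]
  refine ⟨B₀, ?_, ?_, ?_⟩
  · refine norm_le_of_quad B₀ hBh 4 (by norm_num) hBup fun f => ?_
    have := hBlow f
    have h2 : 0 ≤ ∑ y, ‖f y‖ ^ 2 := Finset.sum_nonneg fun _ _ => sq_nonneg _
    linarith
  · have hYe : ∀ p q, (Matrix.of (yM h E μ u B₀)) p q = yM h E μ u B₀ p q := fun p q => rfl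
    refine norm_le_of_quad _ ?_ 3 (by norm_num) ?_ ?_
    · intro p q
      rw [hYe, hYe]
      unfold yM
      rw [xM_symm p q]
      by_cases hpq : p.1 = q.1
      · rw [if_pos hpq, if_pos hpq.symm, star_add, star_mul', hBh, hpq]
        simp
      · rw [if_neg hpq, if_neg (fun e => hpq e.symm)]
        simp
    · intro f
      have h0 : (∑ p, ∑ q, star (f p) * (Matrix.of (yM h E μ u B₀)) p q * f q).re =
        (∑ p, ∑ q, star (f p) * yM h E μ u B₀ p q * f q).re := rfl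
      rw [h0, quad_yM]
      have h1 : ∑ s, u s * (∑ y, ∑ z, star (f (s, y)) * B₀ y z * f (s, z)).re ≤
          ∑ s, (∑ y, ∑ z, star (f (s, y)) * B₀ y z * f (s, z)).re := by
        refine Finset.sum_le_sum fun s _ => ?_
        have := hBlow fun y => f (s, y)
        nlinarith [hu1 s]
      have h2 : ∑ s, (∑ y, ∑ z, star (f (s, y)) * B₀ y z * f (s, z)).re =
          (3 + c₁) * ∑ p, ‖f p‖ ^ 2 - (∑ y, deg E μ y * LA2.ph f y ^ 2) / (4 * n) -
            2 * ∑ s, (∑ y, ∑ z, star (f (s, y)) * P₁ y z * f (s, z)).re := by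
        have h3 : ∀ s, (∑ y, ∑ z, star (f (s, y)) * B₀ y z * f (s, z)).re =
            (∑ y, ((3 + c₁) * ‖f (s, y)‖ ^ 2 - deg E μ y * ‖f (s, y)‖ ^ 2 / (4 * n))) -
              2 * (∑ y, ∑ z, star (f (s, y)) * P₁ y z * f (s, z)).re := by
          intro s
          rw [hquadB fun y => f (s, y)]
          congr 1
          exact Finset.sum_congr rfl fun y _ => by ring
        simp only [h3, Finset.sum_sub_distrib, ← Finset.mul_sum]
        congr 2
        · rw [Fintype.sum_prod_type]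
        · rw [Finset.sum_comm, Finset.sum_div]
          refine Finset.sum_congr rfl fun y _ => ?_
          rw [LA2.ph_sq, Finset.mul_sum, Finset.sum_div]
      have h3 := hPA f
      have h4 : (∑ p, ∑ q, star (f p) * A p q * f q).re = (∑ y, deg E μ y * LA2.ph f y ^ 2 -
        (∑ p, ∑ q, star (f p) * (xM h E μ p q : ℂ) * f q).re) / (4 * n) := LA2.re_form_a f
      rw [h4, sub_div] at h3
      rw [h2] at h1
      linarith
    · intro f
      have h0 : (∑ p, ∑ q, star (f p) * (Matrix.of (yM h E μ u B₀)) p q * f q).re =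
        (∑ p, ∑ q, star (f p) * yM h E μ u B₀ p q * f q).re := rfl
      rw [h0, quad_yM]
      have h1 : 0 ≤ ∑ s, u s * (∑ y, ∑ z, star (f (s, y)) * B₀ y z * f (s, z)).re :=
        Finset.sum_nonneg fun s _ => mul_nonneg (hu0 s) (hBlow fun y => f (s, y))
      have h2 := neg_le_of_abs_le (form_x hd f)
      have h3 : 0 ≤ ∑ p, ‖f p‖ ^ 2 := Finset.sum_nonneg fun _ _ => sq_nonneg _
      have h4 : -(1 / 2 * ∑ p, ‖f p‖ ^ 2) ≤
          (∑ p, ∑ q, star (f p) * (xM h E μ p q : ℂ) * f q).re / (4 * n) := by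
        rw [le_div_iff₀ (by positivity)]
        linarith
      linarith
  · have hμs : 0 < ∑ y, μ y := Finset.sum_pos (fun y _ => hd.μpos y) Finset.univ_nonempty
    rw [le_div_iff₀ hμs, Finset.mul_sum]
    refine Finset.sum_le_sum fun y _ => ?_
    rw [mul_comm]
    refine mul_le_mul_of_nonneg_left ?_ (hd.μpos y).le
    have h1 : (B₀ y y).re = 3 + c₁ - deg E μ y / (4 * n) - 2 * (P₁ y y).re := by
      rw [hBe, if_pos rfl, Complex.sub_re, Complex.ofReal_re]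
      simp
    rw [h1]
    have h2 := hPd y
    have h3 : (1 : ℝ) - κ / 2 = 1 - ε ^ 2 / (32 * n ^ 2) := by
      rw [hκdef]; field_simp; ring
    rw [h3] at h2
    rw [← hc₁e] at ht
    have h4 : ε ^ 2 / (1024 * n ^ 2) = c₁ / 2 := by
      rw [hc₁e]; field_simp; norm_num
    rw [h4]
    linarith

end Key

end Pool.Agent.KW
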